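import Pool.Agent.Y571.UB.Stm2

/-!
# Lower bound for the entropic time
-/

set_option autoImplicit false

open Filter Topology
open Pool.Agent.H632R3.RCG

namespace Pool.Agent.Y794.UB

theorem entropy_zero : poissonEntropy 0 = 0 := by
  unfold poissonEntropy
  have h : (fun j : ℕ => Real.negMulLog (Real.exp (-0) * 0 ^ j / (j.factorial : ℝ))) =
      fun _ => 0 := by
    funext j
    rcases Nat.eq_zero_or_pos j with rfl | hj
    · simp
    · simp [zero_pow hj.ne']
  rw [h, tsum_zero]

theorem core (hE : Pool.Agent.Y571.UB.S_ENT) (N k : ℕ) (ε L κ x : ℝ) (hε : 0 < ε) (hε1 : ε < 1)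
    (hL : L = Real.log N) (hL1 : 1 ≤ L) (hκ : κ = k / L) (hlk : 1 ≤ Real.log κ)
    (hx : x = L / Real.log κ)
    (hbig : 2 + Real.log (Real.log κ) + Real.log (1 / (1 - ε)) < ε / (1 - ε) * Real.log κ) :
    (1 - ε) * x ≤ t0 k N := by
  have h1ε : 0 < 1 - ε := by linarith
  have hlk0 : 0 < Real.log κ := by linarith
  have hL0 : 0 < L := by linarith
  have hκ0 : 0 ≤ κ := by rw [hκ]; positivity
  have hκ1 : 1 < κ := (Real.log_pos_iff hκ0).1 hlk0
  have hk : (k : ℝ) = κ * L := by rw [hκ]; field_simp
  have hkL : L < k := by rw [hk]; nlinarith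
  have hk0 : (0 : ℝ) < k := by linarith
  have hx0 : 0 < x := by rw [hx]; positivity
  have hxL : x ≤ L := by
    rw [hx, div_le_iff₀ hlk0]
    nlinarith
  obtain ⟨y, hy⟩ : ∃ y : ℝ, y = (1 - ε) * x := ⟨_, rfl⟩
  have hy0 : 0 < y := by rw [hy]; positivity
  have hyx : y ≤ x := by rw [hy]; nlinarith
  rw [← hy]
  unfold t0
  refine le_csInf ⟨L, hL0.le, ?_⟩ ?_
  · rw [← hL]
    have h1 : L / k ≤ 1 := by
      rw [div_le_one hk0]
      exact hkL.le
    have h2 := min_le_entropy (s := L / k) (by positivity)
    rw [min_eq_left h1] at h2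
    calc L = k * (L / k) := by field_simp
      _ ≤ k * poissonEntropy (L / k) := mul_le_mul_of_nonneg_left h2 hk0.le
  · rintro t ⟨ht0, ht⟩
    by_contra hcon
    push Not at hcon
    rw [← hL] at ht
    rcases ht0.eq_or_lt with h0 | ht1
    · rw [← h0, zero_div, entropy_zero, mul_zero] at ht
      linarith
    have htk : t ≤ k := by linarith
    have h1 := hE (t / k) (by positivity)
    have h2 : (k : ℝ) * poissonEntropy (t / k) ≤ t - t * Real.log (t / k) + t ^ 2 / k := by
      calc (k : ℝ) * poissonEntropy (t / k) ≤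
          k * (t / k - t / k * Real.log (t / k) + (t / k) ^ 2) :=
            mul_le_mul_of_nonneg_left h1 hk0.le
        _ = t - t * Real.log (t / k) + t ^ 2 / k := by field_simp
    have h3 : t ^ 2 / k ≤ t := by
      rw [div_le_iff₀ hk0]
      nlinarith
    have h4 : Real.log (t / k) = Real.log t - Real.log k := Real.log_div ht1.ne' hk0.ne'
    have h5 : t * (Real.log y - Real.log t) ≤ y - t := by
      have h6 := Real.log_le_sub_one_of_pos (x := y / t) (by positivity)
      rw [Real.log_div hy0.ne' ht1.ne'] at h6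
      calc t * (Real.log y - Real.log t) ≤ t * (y / t - 1) :=
            mul_le_mul_of_nonneg_left h6 ht1.le
        _ = y - t := by field_simp
    have h7 : 0 ≤ Real.log k - Real.log y := by
      have := Real.log_le_log hy0 (show y ≤ k by linarith)
      linarith
    have h8 : L ≤ y * (2 + (Real.log k - Real.log y)) := by
      have h9 : L ≤ 2 * t + t * (Real.log k - Real.log t) := by
        have : L ≤ t - t * Real.log (t / k) + t ^ 2 / k := ht.trans h2
        rw [h4] at this
        linarith
      have h10 : t * (1 + (Real.log k - Real.log y)) ≤ y * (1 + (Real.log k - Real.log y)) :=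
        mul_le_mul_of_nonneg_right hcon.le (by linarith)
      linarith
    have h11 : Real.log k = Real.log κ + Real.log L := by
      rw [hk, Real.log_mul (by linarith) hL0.ne']
    have h12 : Real.log y = Real.log (1 - ε) + (Real.log L - Real.log (Real.log κ)) := by
      rw [hy, Real.log_mul h1ε.ne' hx0.ne', hx, Real.log_div hL0.ne' hlk0.ne']
    have h13 : Real.log (1 / (1 - ε)) = - Real.log (1 - ε) := by
      rw [one_div, Real.log_inv]
    have h14 : 2 + (Real.log k - Real.log y) < Real.log κ / (1 - ε) := by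
      have e : ε / (1 - ε) * Real.log κ + Real.log κ = Real.log κ / (1 - ε) := by
        field_simp
        ring
      rw [← e, h11, h12]
      rw [h13] at hbig
      linarith
    have h15 : y * (Real.log κ / (1 - ε)) = L := by
      rw [hy, hx]
      field_simp
    have h16 : y * (2 + (Real.log k - Real.log y)) < y * (Real.log κ / (1 - ε)) :=
      mul_lt_mul_of_pos_left h14 hy0
    linarith

theorem t0low : Pool.Agent.Y571.UB.S_T0 := by
  intro hE N k ε hε hε1 hN hk
  have h1ε : 0 < 1 - ε := by linarith
  have ha : 0 < ε / (1 - ε) := by positivity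
  have hz : Tendsto (fun j => Real.log ((k j : ℝ) / Real.log (N j))) atTop atTop :=
    Real.tendsto_log_atTop.comp hk
  have hb : ∀ᶠ z : ℝ in atTop,
      2 + Real.log z + Real.log (1 / (1 - ε)) < ε / (1 - ε) * z := by
    have h1 := Real.isLittleO_log_id_atTop.bound (show 0 < ε / (1 - ε) / 2 by positivity)
    filter_upwards [h1, eventually_gt_atTop 0,
      eventually_gt_atTop ((2 + Real.log (1 / (1 - ε))) / (ε / (1 - ε) / 2))] with z h2 h3 h4
    rw [div_lt_iff₀ (by positivity)] at h4
    have h5 : Real.log z ≤ ε / (1 - ε) / 2 * z := by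
      refine (le_abs_self _).trans ?_
      have h6 : ‖(id z : ℝ)‖ = z := by
        rw [id, Real.norm_of_nonneg h3.le]
      rw [h6, Real.norm_eq_abs] at h2
      exact h2
    linarith
  filter_upwards [hN.eventually_ge_atTop 1, hz.eventually_ge_atTop 1, hz.eventually hb]
    with j h1 h2 h3
  exact core hE (N j) (k j) ε _ _ _ hε hε1 rfl h1 rfl h2 rfl h3

end Pool.Agent.Y794.UB
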